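import Pool.Agent.H34.WM.StmA
import Pool.Agent.H34.ER.E4

set_option autoImplicit false

/-!
# Piece W3: the derivatives of a regular pair
-/

namespace H35.WM

open MeasureTheory Set Metric Filter Topology H82.Bil H87.BP H87.VA H82.ER H9.WM H34.WM
open H34.ER.E4

open scoped ENNReal NNReal

lemma dir_bd2 {G : ℂ × Dir → ℝ} {x : ℂ} {θ : Dir}
    (hd : DifferentiableAt ℝ (fun y => G (y, θ)) x) (η : Dir) {s w : ℝ}
    (hs : ∀ c : ℝ, s < c →
      ∀ᶠ h : ℝ in 𝓝[>] (0 : ℝ), |G (x + (h : ℂ) * e η, θ) - G (x, θ) + w * h| ≤ c * h) :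
    |fderiv ℝ (fun y => G (y, θ)) x (e η) + w| ≤ s := by
  apply le_of_forall_gt_imp_ge_of_dense
  intro c hc
  have h1 := (hd.hasFDerivAt.hasLineDerivAt (e η)).tendsto_slope_zero
  have h2 : Tendsto (fun t : ℝ => t⁻¹ • (G (x + t • e η, θ) - G (x, θ))) (𝓝[>] 0)
      (𝓝 (fderiv ℝ (fun y => G (y, θ)) x (e η))) := by
    refine (h1.mono_left (nhdsWithin_mono _ ?_)).congr fun t => ?_
    · intro t ht
      simp only [mem_Ioi] at ht
      simp only [mem_compl_iff, mem_singleton_iff]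
      exact ht.ne'
    · simp
  refine le_of_tendsto (h2.add_const w).abs ?_
  filter_upwards [hs c hc, self_mem_nhdsWithin] with t ht ht0
  simp only [mem_Ioi] at ht0
  have h3 : t⁻¹ • (G (x + t • e η, θ) - G (x, θ)) + w =
      t⁻¹ * (G (x + (t : ℂ) * e η, θ) - G (x, θ) + w * t) := by
    rw [smul_eq_mul, Complex.real_smul]
    field_simp
  rw [h3, abs_mul, abs_of_pos (inv_pos.2 ht0)]
  calc t⁻¹ * |G (x + (t : ℂ) * e η, θ) - G (x, θ) + w * t| ≤ t⁻¹ * (c * t) :=
        mul_le_mul_of_nonneg_left ht (inv_pos.2 ht0).le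
    _ = c := by field_simp

/-- the derivatives of one of the two functions -/
lemma one (T : Table) (w : ℝ) (G H s g : ℂ × Dir → ℝ) (M L ρ : ℝ)
    (hR : Rg T G (fun _ => L) g M L ρ) (hH : Measurable H) (sm : Measurable s)
    (sb : ∀ x ∈ T.U, ∀ (θ : Dir) (c : ℝ), s (x, θ) < c →
      ∀ᶠ h : ℝ in 𝓝[>] (0 : ℝ),
        |G (x + (h : ℂ) * e θ, θ) - G (x, θ) + w * h * H (x, θ)| ≤ c * h) :
    ∃ A1 A2 : ℂ × Dir → ℝ, Measurable A1 ∧ Measurable A2 ∧
      (∀ a, |A1 a| ≤ L) ∧ (∀ a, |A2 a| ≤ L) ∧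
      (∀ᵐ x ∂(volume.restrict T.U), ∀ n : ℕ, dx (am n G) x = am n A1 x ∧
        dy (am n G) x = am n A2 x) ∧
      ∀ᵐ a ∂(volume.restrict (T.U ×ˢ (univ : Set Dir))),
        |(e a.2).re * A1 a + (e a.2).im * A2 a + w * H a| ≤ s a ∧
        A1 a ^ 2 + A2 a ^ 2 ≤ g a ^ 2 := by
  have hU : IsOpen T.U := T.isOpen
  have hG := hR.Gm
  refine ⟨A G L 1, A G L Complex.I, A_meas hG L 1, A_meas hG L Complex.I, A_le hR.Lpos 1,
    A_le hR.Lpos Complex.I, ?_, ?_⟩
  · rw [ae_restrict_iff' hU.measurableSet]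
    have hnd : ∀ᵐ x : ℂ, ∀ n : ℕ, x ∈ T.U → DifferentiableAt ℝ (am n G) x := by
      rw [ae_all_iff]
      intro n
      have h1 := nodiff hU (f := am n G)
        (mul_nonneg hR.Lpos (ENNReal.toReal_nonneg (a := volume (univ : Set Dir))))
        (am_lip hG hR.Gb hR.lip n)
      rw [ae_iff]
      refine measure_mono_null ?_ h1
      intro x hx
      simp only [Set.mem_ofPred_eq, not_forall] at hx
      obtain ⟨hx1, hx2⟩ := hx
      exact ⟨hx1, hx2⟩
    filter_upwards [hnd, ae_tend hU hG hR.Lpos hR.lip (v := 1) (by simp),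
      ae_tend hU hG hR.Lpos hR.lip (v := Complex.I) (by simp)] with x h1 h2 h3 hx n
    exact ⟨am_der hU hG hR.Gb hR.lip n hx (h1 n hx) (by simp) (h2 hx),
      am_der hU hG hR.Gb hR.lip n hx (h1 n hx) (by simp) (h3 hx)⟩
  · have hUm : MeasurableSet (T.U ×ˢ (univ : Set Dir)) := hU.measurableSet.prod MeasurableSet.univ
    rw [ae_restrict_iff' hUm, ae_iff]
    set P : ℂ × Dir → Prop := fun a =>
      |(e a.2).re * A G L 1 a + (e a.2).im * A G L Complex.I a + w * H a| ≤ s a ∧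
        A G L 1 a ^ 2 + A G L Complex.I a ^ 2 ≤ g a ^ 2 with hP
    have hPm : MeasurableSet {a | P a} := by
      have e1 : Measurable (fun a : ℂ × Dir => (e a.2).re) :=
        Complex.measurable_re.comp (continuous_e.measurable.comp measurable_snd)
      have e2 : Measurable (fun a : ℂ × Dir => (e a.2).im) :=
        Complex.measurable_im.comp (continuous_e.measurable.comp measurable_snd)
      have a1 := A_meas hG L 1
      have a2 := A_meas hG L Complex.I
      have m1 : MeasurableSet {a : ℂ × Dir |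
          |(e a.2).re * A G L 1 a + (e a.2).im * A G L Complex.I a + w * H a| ≤ s a} :=
        measurableSet_le (measurable_norm.comp (((e1.mul a1).add (e2.mul a2)).add
          (hH.const_mul w))) sm
      have m2 : MeasurableSet {a : ℂ × Dir |
          A G L 1 a ^ 2 + A G L Complex.I a ^ 2 ≤ g a ^ 2} :=
        measurableSet_le ((a1.pow_const 2).add (a2.pow_const 2)) (hR.gm.pow_const 2)
      exact m1.inter m2
    have hSm : MeasurableSet {a : ℂ × Dir | a.1 ∈ T.U ∧ ¬ P a} :=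
      (hU.measurableSet.preimage measurable_fst).inter hPm.compl
    have h0 : volume {a : ℂ × Dir | a.1 ∈ T.U ∧ ¬ P a} = 0 := by
      apply null_of_sections hSm
      intro θ
      refine measure_mono_null ?_ (nodiff hU hR.Lpos (f := fun y => G (y, θ)) (hR.lip θ))
      rintro x ⟨hx1, hx2⟩
      refine ⟨hx1, fun hd => hx2 ?_⟩
      have h1 := A_val hU (hR.lip θ) hx1 hd (v := 1) (by simp)
      have h2 := A_val hU (hR.lip θ) hx1 hd (v := Complex.I) (by simp)
      simp only [hP, h1, h2]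
      constructor
      · rw [← lin (fderiv ℝ (fun y => G (y, θ)) x) (e θ)]
        apply dir_bd2 hd θ
        intro c hc
        filter_upwards [sb x hx1 θ c hc] with h hh
        have : w * H (x, θ) * h = w * h * H (x, θ) := by ring
        rw [this]
        exact hh
      · exact grad_bd _ (hR.g0 _) fun η => dir_bd hd η (hR.gb x hx1 θ η)
    refine measure_mono_null ?_ h0
    intro a ha
    simp only [Set.mem_ofPred_eq, not_forall] at ha
    obtain ⟨ha1, ha2⟩ := ha
    exact ⟨ha1.1, ha2⟩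

/-- piece W3 -/
theorem pieceDiffW : H34.WM.PieceDiffW := by
  intro T ω G H s g M L ρ hR
  obtain ⟨A1, A2, a1, a2, a3, a4, a5, a6⟩ :=
    one T ω G H s g M L ρ hR.rG hR.rH.Gm hR.sm hR.sbG
  obtain ⟨B1, B2, b1, b2, b3, b4, b5, b6⟩ :=
    one T (-ω) H G s g M L ρ hR.rH hR.rG.Gm hR.sm (fun x hx θ c hc => by
      filter_upwards [hR.sbH x hx θ c hc] with h hh
      have : H (x + (h : ℂ) * e θ, θ) - H (x, θ) + -ω * h * G (x, θ) =
        H (x + (h : ℂ) * e θ, θ) - H (x, θ) - ω * h * G (x, θ) := by ring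
      rw [this]
      exact hh)
  refine ⟨A1, A2, B1, B2, a1, a2, b1, b2, a3, a4, b3, b4, ?_, ?_⟩
  · filter_upwards [a5, b5] with x h1 h2 n
    exact ⟨(h1 n).1, (h1 n).2, (h2 n).1, (h2 n).2⟩
  · filter_upwards [a6, b6] with a h1 h2
    refine ⟨h1.1, ?_, h1.2, h2.2⟩
    have := h2.1
    have e1 : (e a.2).re * B1 a + (e a.2).im * B2 a - ω * G a =
      (e a.2).re * B1 a + (e a.2).im * B2 a + -ω * G a := by ring
    rw [e1]
    exact this

end H35.WM
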